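import Pool.Agent.KS6_12.LY.Words

/-!
# The sequence with the structure `A_k` for all `k`, and its recognizability
-/

set_option autoImplicit false

namespace Pool.Agent.KS6_12.LY

/-- `xs n = 1` iff the number of digits `2` of `n` in base three is even -/
def xs (n : ℕ) : Bool := if h : n = 0 then true else xor (decide (n % 3 = 2)) (xs (n / 3))
decreasing_by omega

theorem xs_zero : xs 0 = true := by rw [xs]; simp

theorem xs_0 (t : ℕ) : xs (3 * t) = xs t := by
  rcases Nat.eq_zero_or_pos t with h | h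
  · subst h; rfl
  · rw [xs, dif_neg (by omega), show 3 * t % 3 = 0 by omega, show 3 * t / 3 = t by omega]
    simp

theorem xs_1 (t : ℕ) : xs (3 * t + 1) = xs t := by
  rw [xs, dif_neg (by omega), show (3 * t + 1) % 3 = 1 by omega, show (3 * t + 1) / 3 = t by omega]
  simp

theorem xs_2 (t : ℕ) : xs (3 * t + 2) = !xs t := by
  rw [xs, dif_neg (by omega), show (3 * t + 2) % 3 = 2 by omega, show (3 * t + 2) / 3 = t by omega]
  simp

theorem isC_xs : ∀ (k : ℕ) (c : Bool) (t : ℕ), isC k c xs (t * 3 ^ k) ↔ xs t = c := by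
  intro k
  induction k with
  | zero => intro c t; unfold isC; rw [pow_zero, mul_one]
  | succ k ih =>
    intro c t
    have e0 : t * 3 ^ (k + 1) = 3 * t * 3 ^ k := by rw [pow_succ]; ring
    have e1 : 3 * t * 3 ^ k + 3 ^ k = (3 * t + 1) * 3 ^ k := by ring
    have e2 : 3 * t * 3 ^ k + 2 * 3 ^ k = (3 * t + 2) * 3 ^ k := by ring
    unfold isC
    rw [e0, e1, e2, ih, ih, ih, xs_0, xs_1, xs_2]
    cases xs t <;> cases c <;> simp

theorem W_xs (k t : ℕ) : W k xs (t * 3 ^ k) := isC_W k (xs t) ((isC_xs k (xs t) t).2 rfl)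

theorem xs_InX : InX xs := fun k => ⟨0, by positivity, xs, fun i => W_xs k i, fun i => by rw [zero_add]⟩

theorem exists_val (c : Bool) (v : ℕ) : ∃ u, 3 * v ≤ u ∧ u ≤ 3 * v + 2 ∧ xs u = c := by
  by_cases h : xs v = c
  · exact ⟨3 * v, le_rfl, by omega, by rw [xs_0]; exact h⟩
  · refine ⟨3 * v + 2, by omega, le_rfl, ?_⟩
    rw [xs_2]
    cases hx : xs v <;> cases c <;> simp_all

/-- **Recognizability**: a parse of `xs` into words of `W_k` with a wrong phase fails in every long window. -/
theorem rec_xs : ∀ k : ℕ, ∃ C : ℕ, ∀ j : ℕ, ¬ 3 ^ k ∣ j → ∀ n0 : ℕ, ∃ p, n0 ≤ p ∧ p ≤ n0 + C ∧ p ≡ j [MOD 3 ^ k] ∧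
    ¬ W k xs p := by
  intro k
  induction k with
  | zero => exact ⟨0, fun j hj => absurd (by simp) hj⟩
  | succ k ih =>
    obtain ⟨C, ih⟩ := ih
    have e : 3 ^ (k + 1) = 3 * 3 ^ k := by rw [pow_succ]; ring
    have h3 : 0 < 3 ^ k := by positivity
    refine ⟨C + 20 * 3 ^ k, fun j hj n0 => ?_⟩
    by_cases hk : 3 ^ k ∣ j
    · obtain ⟨j', rfl⟩ := hk
      have hj' : j' % 3 = 1 ∨ j' % 3 = 2 := by
        have : ¬ 3 ∣ j' := fun h => hj (by rw [e, mul_comm 3]; exact Nat.mul_dvd_mul_left _ h)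
        omega
      obtain ⟨v, hv⟩ : ∃ v, v = n0 / (9 * 3 ^ k) + 1 := ⟨_, rfl⟩
      have hv1 : n0 ≤ 9 * 3 ^ k * v := by
        have := Nat.lt_mul_div_succ n0 (show 0 < 9 * 3 ^ k by positivity)
        rw [hv]; exact this.le
      have hv2 : 9 * 3 ^ k * v ≤ n0 + 9 * 3 ^ k := by
        have := Nat.mul_div_le n0 (9 * 3 ^ k)
        rw [hv, Nat.mul_add, mul_one]; omega
      rcases hj' with hj' | hj'
      · obtain ⟨u, hu1, hu2, hu⟩ := exists_val true v
        refine ⟨(3 * u + 1) * 3 ^ k, ?_, ?_, ?_, ?_⟩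
        · nlinarith
        · nlinarith
        · rw [e, mul_comm (3 * u + 1), mul_comm 3]
          exact Nat.ModEq.mul_left' _ (by unfold Nat.ModEq; omega)
        · intro h
          have h1 : isC k true xs ((3 * u + 1) * 3 ^ k) := (isC_xs _ _ _).2 (by rw [xs_1, hu])
          have h2 := (W_start h h1).2.1
          rw [← Nat.succ_mul] at h2
          have h4 := (isC_xs _ _ _).1 h2
          rw [show (3 * u + 1).succ = 3 * u + 2 by omega, xs_2, hu] at h4
          exact absurd h4 (by simp)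
      · obtain ⟨u, hu1, hu2, hu⟩ := exists_val false v
        refine ⟨(3 * u + 2) * 3 ^ k, ?_, ?_, ?_, ?_⟩
        · nlinarith
        · nlinarith
        · rw [e, mul_comm (3 * u + 2), mul_comm 3]
          exact Nat.ModEq.mul_left' _ (by unfold Nat.ModEq; omega)
        · intro h
          have h1 : isC k true xs ((3 * u + 2) * 3 ^ k) := (isC_xs _ _ _).2 (by rw [xs_2, hu]; rfl)
          have h2 := (W_start h h1).2.1
          have h2' := (W_start h h1).2.2
          rw [← Nat.succ_mul] at h2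
          rw [← Nat.add_mul] at h2'
          have h4 := (isC_xs _ _ _).1 h2
          have h5 := (isC_xs _ _ _).1 h2'
          rw [show (3 * u + 2).succ = 3 * (u + 1) by omega, xs_0] at h4
          rw [show 3 * u + 2 + 2 = 3 * (u + 1) + 1 by omega, xs_1, h4] at h5
          exact absurd h5 (by simp)
    · obtain ⟨p', hp1, hp2, hp3, hp4⟩ := ih j hk (n0 + 3 ^ (k + 1))
      -- the position of the long word
      obtain ⟨r, hr⟩ : ∃ r, r = (p' + (3 ^ (k + 1) - j % 3 ^ (k + 1))) % 3 ^ (k + 1) := ⟨_, rfl⟩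
      have hr1 : r < 3 ^ (k + 1) := by rw [hr]; exact Nat.mod_lt _ (by positivity)
      have hjm : j % 3 ^ (k + 1) < 3 ^ (k + 1) := Nat.mod_lt _ (by positivity)
      have hmod : j + r ≡ p' [MOD 3 ^ (k + 1)] := by
        have h1 : r ≡ p' + (3 ^ (k + 1) - j % 3 ^ (k + 1)) [MOD 3 ^ (k + 1)] := by
          rw [hr]; exact Nat.mod_modEq _ _
        have h2 : j ≡ j % 3 ^ (k + 1) [MOD 3 ^ (k + 1)] := (Nat.mod_modEq _ _).symm
        have h4 := h2.add h1
        have h5 : j % 3 ^ (k + 1) + (p' + (3 ^ (k + 1) - j % 3 ^ (k + 1))) = p' + 3 ^ (k + 1) := by omega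
        rw [h5] at h4
        exact h4.trans (by unfold Nat.ModEq; simp)
      have hdvd : 3 ^ k ∣ r := by
        have h1 : j + r ≡ j [MOD 3 ^ k] := (hmod.of_dvd (pow_dvd_pow 3 (Nat.le_succ k))).trans hp3
        have h2 : j + r ≡ j + 0 [MOD 3 ^ k] := by simpa using h1
        exact (Nat.modEq_zero_iff_dvd).1 (Nat.ModEq.add_left_cancel' j h2)
      obtain ⟨i, rfl⟩ := hdvd
      have hi : i = 0 ∨ i = 1 ∨ i = 2 := by
        have : i < 3 := by
          by_contra hcon
          push Not at hcon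
          have := Nat.mul_le_mul_left (3 ^ k) hcon
          omega
        omega
      have hle : 3 ^ k * i ≤ p' := by omega
      refine ⟨p' - 3 ^ k * i, by omega, by omega, ?_, fun h => hp4 ?_⟩
      · have h1 : (p' - 3 ^ k * i) + 3 ^ k * i ≡ j + 3 ^ k * i [MOD 3 ^ (k + 1)] := by
          rw [Nat.sub_add_cancel hle]; exact hmod.symm
        exact Nat.ModEq.add_right_cancel' _ h1
      · have h1 := W_sub h
        rcases hi with hi | hi | hi
        · subst hi; simpa using h1.1
        · subst hi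
          have := h1.2.1
          rwa [mul_one, Nat.sub_add_cancel (by omega)] at this
        · subst hi
          have := h1.2.2
          rwa [mul_comm (3 ^ k) 2, Nat.sub_add_cancel (by omega)] at this

/-- **No point of the system that starts with `1` is proximal to `xs`.** -/
theorem not_proximal {y : ℕ → Bool} (hy : InX y) (h0 : y 0 = true) (hne : y ≠ xs) :
    ∃ L : ℕ, ∀ n : ℕ, ∃ i ≤ L, xs (n + i) ≠ y (n + i) := by
  classical
  have hex : ∃ k, ¬ isC k true y 0 := by
    by_contra hcon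
    push Not at hcon
    apply hne
    funext i
    have h1 : isC i true xs 0 := by
      have := (isC_xs i true 0).2 xs_zero
      rwa [zero_mul] at this
    have := isC_eq i true (hcon i) h1 i (Nat.lt_pow_self (by norm_num))
    simpa using this
  have hk0 : Nat.find hex ≠ 0 := by
    intro h
    have := Nat.find_spec hex
    rw [h] at this
    exact this h0
  obtain ⟨k, hk⟩ : ∃ k, Nat.find hex = k + 1 := ⟨Nat.find hex - 1, by omega⟩
  have hA : isC k true y 0 := by
    have := Nat.find_min hex (m := k) (by omega)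
    push Not at this
    exact this
  have hA' : ¬ isC (k + 1) true y 0 := by
    have := Nat.find_spec hex
    rwa [hk] at this
  obtain ⟨s, hs, z, hz, hyz⟩ := hy (k + 1)
  have hs0 : s ≠ 0 := by
    rintro rfl
    apply hA'
    apply W_start _ hA
    have := hz 0
    rw [zero_mul] at this
    exact (W_congr (k + 1) fun i _ => by rw [hyz]; simp).2 this
  obtain ⟨C, hC⟩ := rec_xs (k + 1)
  have hj : ¬ 3 ^ (k + 1) ∣ 3 ^ (k + 1) - s := by
    intro h
    have := Nat.le_of_dvd (by omega) h
    omega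
  refine ⟨C + 3 ^ (k + 1), fun n => ?_⟩
  obtain ⟨p, hp1, hp2, hp3, hp4⟩ := hC _ hj n
  by_contra hcon
  push Not at hcon
  apply hp4
  have h1 : (p + s) ≡ 0 [MOD 3 ^ (k + 1)] := by
    have := hp3.add_right s
    rw [Nat.sub_add_cancel hs.le] at this
    exact this.trans (by unfold Nat.ModEq; simp)
  obtain ⟨t, ht⟩ := (Nat.modEq_zero_iff_dvd).1 h1
  have h2 := hz t
  refine (W_congr (k + 1) fun i hi => ?_).2 h2
  have h4 := hcon (p - n + i) (by omega)
  rw [show n + (p - n + i) = p + i by omega] at h4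
  rw [h4, hyz, mul_comm t, ← ht]
  congr 1
  ring

theorem xs_ne_ff : xs ≠ ff := by
  intro h
  have := congrFun h 0
  rw [xs_zero] at this
  exact absurd this (by simp [ff])

end Pool.Agent.KS6_12.LY
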