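import Pool.Agent.KS6_12.LY.Rec

/-!
# The space of the system
-/

set_option autoImplicit false

open Set Filter Topology

namespace Pool.Agent.KS6_12.LY

theorem isClopen_isC : ∀ (k : ℕ) (c : Bool) (p : ℕ), IsClopen {y : ℕ → Bool | isC k c y p} := by
  intro k
  induction k with
  | zero =>
    intro c p
    exact (isClopen_discrete ({c} : Set Bool)).preimage (continuous_apply p)
  | succ k ih =>
    intro c p
    exact (ih c p).inter ((ih c _).inter (ih (!c) _))

theorem isClopen_W : ∀ (k p : ℕ), IsClopen {y : ℕ → Bool | W k y p} := by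
  intro k
  induction k with
  | zero =>
    intro p
    have : {y : ℕ → Bool | W 0 y p} = univ := by
      ext y; simp [W]
    rw [this]
    exact isClopen_univ
  | succ k ih =>
    intro p
    exact (isClopen_isC (k + 1) true p).union
      ((isClopen_isC k true p).compl.inter ((ih p).inter ((ih _).inter (ih _))))

theorem isClosed_Lev (k : ℕ) : IsClosed {y : ℕ → Bool | Lev k y} := by
  have h : {y : ℕ → Bool | Lev k y} = ⋃ s ∈ Iio (3 ^ k),
      (fun z : ℕ → Bool => fun i => z (s + i)) '' {z | ∀ i, W k z (i * 3 ^ k)} := by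
    ext y
    simp only [mem_ofPred_eq, mem_iUnion, mem_image, mem_Iio]
    constructor
    · rintro ⟨s, hs, z, hz, hy⟩
      exact ⟨s, hs, z, hz, funext fun i => (hy i).symm⟩
    · rintro ⟨s, hs, z, hz, hy⟩
      exact ⟨s, hs, z, hz, fun i => (congrFun hy i).symm⟩
  rw [h]
  refine (finite_Iio _).isClosed_biUnion fun s _ => ?_
  have hc : IsClosed {z : ℕ → Bool | ∀ i, W k z (i * 3 ^ k)} := by
    rw [ofPred_forall]
    exact isClosed_iInter fun i => (isClopen_W k _).isClosed
  exact (hc.isCompact.image (continuous_pi fun i => continuous_apply (s + i))).isClosed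

theorem isClosed_InX : IsClosed {y : ℕ → Bool | InX y} := by
  have : {y : ℕ → Bool | InX y} = ⋂ k, {y | Lev k y} := by
    ext y
    simp only [mem_ofPred_eq, mem_iInter]
    exact InX_iff
  rw [this]
  exact isClosed_iInter isClosed_Lev

/-- The space. -/
abbrev XX : Type := {y : ℕ → Bool // InX y}

theorem compact_XX : CompactSpace XX := isCompact_iff_compactSpace.1 isClosed_InX.isCompact

/-- The map. -/
def T (y : XX) : XX := ⟨fun i => y.1 (i + 1), InX_shift y.2⟩

theorem T_iter (n : ℕ) (y : XX) (i : ℕ) : (T^[n] y).1 i = y.1 (n + i) := by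
  induction n generalizing i with
  | zero => simp
  | succ n ih =>
    rw [Function.iterate_succ_apply']
    show (T^[n] y).1 (i + 1) = _
    rw [ih]
    exact congrArg y.1 (by ring)

theorem continuous_T : Continuous T := by
  show Continuous fun y : XX => (⟨fun i => y.1 (i + 1), InX_shift y.2⟩ : XX)
  refine Continuous.subtype_mk (continuous_pi fun i => ?_) _
  exact (continuous_apply (i + 1)).comp continuous_subtype_val

theorem surjective_T : Function.Surjective T := by
  intro y
  obtain ⟨c, hc⟩ := preimage y.2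
  refine ⟨⟨_, hc⟩, Subtype.ext (funext fun i => ?_)⟩
  show (if i + 1 = 0 then c else y.1 (i + 1 - 1)) = y.1 i
  rw [if_neg (by omega), Nat.add_sub_cancel]

theorem nbhd (p : XX) {U : Set XX} (hU : U ∈ 𝓝 p) : ∃ N : ℕ, ∀ q : XX, (∀ i < N, q.1 i = p.1 i) → q ∈ U := by
  obtain ⟨V, hV, hVU⟩ := (mem_nhds_subtype _ p U).1 hU
  rw [nhds_pi, Filter.mem_pi] at hV
  obtain ⟨I, hI, t, ht, hs⟩ := hV
  obtain ⟨B, hB⟩ := hI.bddAbove
  refine ⟨B + 1, fun q hq => hVU (hs fun i hi => ?_)⟩
  rw [hq i (Nat.lt_succ_of_le (hB hi))]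
  exact mem_of_mem_nhds (ht i)

/-- The point of the system. -/
def px : XX := ⟨xs, xs_InX⟩

/-- The fixed point. -/
def pf : XX := ⟨ff, ff_InX⟩

theorem T_pf : T pf = pf := rfl

theorem px_ne_pf : px ≠ pf := fun h => xs_ne_ff (congrArg Subtype.val h)

theorem transitive_T {U V : Set XX} (hU : IsOpen U) (hV : IsOpen V) (hU' : U.Nonempty) (hV' : V.Nonempty) :
    ∃ n : ℕ, (U ∩ T^[n] ⁻¹' V).Nonempty := by
  obtain ⟨p, hp⟩ := hU'
  obtain ⟨q, hq⟩ := hV'
  obtain ⟨N1, h1⟩ := nbhd p (hU.mem_nhds hp)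
  obtain ⟨N2, h2⟩ := nbhd q (hV.mem_nhds hq)
  obtain ⟨w, hw, -, hw1, n, -, hn⟩ := join p.2 q.2 (max N1 N2)
  refine ⟨n, ⟨w, hw⟩, h1 _ fun i hi => hw1 i (lt_of_lt_of_le hi (le_max_left _ _)), h2 _ fun i hi => ?_⟩
  rw [T_iter]
  exact hn i (lt_of_lt_of_le hi (le_max_right _ _))

theorem dense_periodic : Dense {x : XX | ∃ r : ℕ, 1 ≤ r ∧ T^[r] x = x} := by
  intro p
  rw [mem_closure_iff_nhds]
  intro U hU
  obtain ⟨N, h⟩ := nbhd p hU
  obtain ⟨w, hw, ⟨r, hr, hper⟩, hw1, -⟩ := join p.2 p.2 N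
  refine ⟨⟨w, hw⟩, h _ hw1, r, hr, Subtype.ext (funext fun i => ?_)⟩
  rw [T_iter]
  show w (r + i) = w i
  rw [add_comm, hper]

theorem no_isolated (p : XX) : ¬ IsOpen ({p} : Set XX) := by
  intro hO
  obtain ⟨N, h⟩ := nbhd p (hO.mem_nhds rfl)
  obtain ⟨w, hw, ⟨r, hr, hper⟩, hw1, -⟩ := join p.2 p.2 N
  have e1 : (⟨w, hw⟩ : XX) = p := h _ hw1
  have hper' : ∀ t i, p.1 (i + t * r) = p.1 i := by
    intro t
    induction t with
    | zero => intro i; simp
    | succ t ih =>
      intro i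
      rw [← ih i, Nat.succ_mul, ← add_assoc, ← e1]
      exact hper _
  obtain ⟨v, hv, -, hv1, n, hn, hvn⟩ := join p.2 ff_InX (N + r)
  have e2 : (⟨v, hv⟩ : XX) = p := h _ fun i hi => hv1 i (by omega)
  have hz : ∀ i < N + r, p.1 (n + i) = false := fun i hi => by rw [← e2]; exact hvn i hi
  have hp : p = pf := by
    refine Subtype.ext (funext fun m => ?_)
    show p.1 m = false
    have hnr : n ≤ n * r := Nat.le_mul_of_pos_right n hr
    rw [← hper' n m, show m + n * r = (n + (m + n * r - n) % r) + (m + n * r - n) / r * r by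
      have := Nat.mod_add_div' (m + n * r - n) r
      omega, hper']
    exact hz _ (lt_of_lt_of_le (Nat.mod_lt _ hr) (Nat.le_add_left _ _))
  obtain ⟨u, hu, -, hu1, m, -, hum⟩ := join ff_InX xs_InX (N + 1)
  have e3 : (⟨u, hu⟩ : XX) = p := h _ fun i hi => by
    rw [hp]; exact hu1 i (by omega)
  have e4 := hum 0 (by omega)
  have e5 : u = ff := by
    have := congrArg Subtype.val (e3.trans hp)
    exact this
  rw [e5, xs_zero] at e4
  exact absurd e4 (by simp [ff])

/-- The set of the pairs that differ at one of the places `0, ..., L`. -/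
theorem isCompact_diff (L : ℕ) : IsCompact {q : XX × XX | ∃ i ≤ L, q.1.1 i ≠ q.2.1 i} := by
  have := compact_XX
  refine IsClosed.isCompact ?_
  have h : {q : XX × XX | ∃ i ≤ L, q.1.1 i ≠ q.2.1 i} = ⋃ i ∈ Iic L, {q : XX × XX | q.1.1 i ≠ q.2.1 i} := by
    ext q
    simp
  rw [h]
  refine (finite_Iic _).isClosed_biUnion fun i _ => ?_
  have hc : Continuous fun q : XX × XX => (q.1.1 i, q.2.1 i) :=
    (((continuous_apply i).comp continuous_subtype_val).comp continuous_fst).prodMk
      (((continuous_apply i).comp continuous_subtype_val).comp continuous_snd)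
  exact (isClosed_discrete {p : Bool × Bool | p.1 ≠ p.2}).preimage hc

end Pool.Agent.KS6_12.LY
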