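import Mathlib

/-!
# Hierarchical words

`A_0 = 1`, `B_0 = 0`, `A_{k+1} = A_k A_k B_k`, `B_{k+1} = B_k B_k A_k`. `W_k` is a set of words of length `3 ^ k`:
`W_0 = {0, 1}`, and `W_{k+1}` consists of `A_{k+1}` and all words `u v w`, `u, v, w ∈ W_k`, `u ≠ A_k`.
-/

set_option autoImplicit false

namespace Pool.Agent.KS6_12.LY

/-- `y[p, p + 3 ^ k)` is the word `A_k` (`c = true`) or `B_k` (`c = false`). -/
def isC : ℕ → Bool → (ℕ → Bool) → ℕ → Prop
  | 0, c, y, p => y p = c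
  | k + 1, c, y, p => isC k c y p ∧ isC k c y (p + 3 ^ k) ∧ isC k (!c) y (p + 2 * 3 ^ k)

/-- `y[p, p + 3 ^ k)` is a word of `W_k`. -/
def W : ℕ → (ℕ → Bool) → ℕ → Prop
  | 0, _, _ => True
  | k + 1, y, p => isC (k + 1) true y p ∨
      (¬ isC k true y p ∧ W k y p ∧ W k y (p + 3 ^ k) ∧ W k y (p + 2 * 3 ^ k))

theorem isC_congr : ∀ (k : ℕ) (c : Bool) {y z : ℕ → Bool} {p q : ℕ}, (∀ i < 3 ^ k, y (p + i) = z (q + i)) →
    (isC k c y p ↔ isC k c z q) := by
  intro k
  induction k with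
  | zero =>
    intro c y z p q h
    have := h 0 (by norm_num)
    simp only [add_zero] at this
    unfold isC
    rw [this]
  | succ k ih =>
    intro c y z p q h
    have e : 3 ^ (k + 1) = 3 * 3 ^ k := by rw [pow_succ]; ring
    unfold isC
    rw [ih c (p := p) (q := q) (z := z) fun i hi => h i (by omega),
      ih c (p := p + 3 ^ k) (q := q + 3 ^ k) (z := z) fun i hi => by
        rw [add_assoc, add_assoc]; exact h _ (by omega),
      ih (!c) (p := p + 2 * 3 ^ k) (q := q + 2 * 3 ^ k) (z := z) fun i hi => by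
        rw [add_assoc, add_assoc]; exact h _ (by omega)]

theorem W_congr : ∀ (k : ℕ) {y z : ℕ → Bool} {p q : ℕ}, (∀ i < 3 ^ k, y (p + i) = z (q + i)) →
    (W k y p ↔ W k z q) := by
  intro k
  induction k with
  | zero => intro y z p q _; unfold W; exact Iff.rfl
  | succ k ih =>
    intro y z p q h
    have e : 3 ^ (k + 1) = 3 * 3 ^ k := by rw [pow_succ]; ring
    unfold W
    rw [isC_congr (k + 1) true h, isC_congr k true (p := p) (q := q) (z := z) fun i hi => h i (by omega),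
      ih (p := p) (q := q) (z := z) fun i hi => h i (by omega),
      ih (p := p + 3 ^ k) (q := q + 3 ^ k) (z := z) fun i hi => by
        rw [add_assoc, add_assoc]; exact h _ (by omega),
      ih (p := p + 2 * 3 ^ k) (q := q + 2 * 3 ^ k) (z := z) fun i hi => by
        rw [add_assoc, add_assoc]; exact h _ (by omega)]

theorem isC_head : ∀ (k : ℕ) (c : Bool) {y : ℕ → Bool} {p : ℕ}, isC k c y p → y p = c := by
  intro k
  induction k with
  | zero => intro c y p h; exact h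
  | succ k ih => intro c y p h; exact ih c h.1

theorem isC_eq : ∀ (k : ℕ) (c : Bool) {y z : ℕ → Bool} {p q : ℕ}, isC k c y p → isC k c z q →
    ∀ i < 3 ^ k, y (p + i) = z (q + i) := by
  intro k
  induction k with
  | zero =>
    intro c y z p q h h' i hi
    have : i = 0 := by simpa using hi
    subst this
    unfold isC at h h'
    rw [add_zero, add_zero, h, h']
  | succ k ih =>
    intro c y z p q h h' i hi
    have e : 3 ^ (k + 1) = 3 * 3 ^ k := by rw [pow_succ]; ring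
    obtain ⟨h1, h2, h3⟩ := h
    obtain ⟨h1', h2', h3'⟩ := h'
    rcases lt_or_ge i (3 ^ k) with hi1 | hi1
    · exact ih c h1 h1' i hi1
    · rcases lt_or_ge i (2 * 3 ^ k) with hi2 | hi2
      · have := ih c h2 h2' (i - 3 ^ k) (by omega)
        rwa [show p + 3 ^ k + (i - 3 ^ k) = p + i by omega, show q + 3 ^ k + (i - 3 ^ k) = q + i by omega] at this
      · have := ih (!c) h3 h3' (i - 2 * 3 ^ k) (by omega)
        rwa [show p + 2 * 3 ^ k + (i - 2 * 3 ^ k) = p + i by omega,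
          show q + 2 * 3 ^ k + (i - 2 * 3 ^ k) = q + i by omega] at this

theorem isC_false_not {k : ℕ} {y : ℕ → Bool} {p : ℕ} (h : isC k false y p) : ¬ isC k true y p := by
  intro h'
  have h1 := isC_head k _ h
  have h2 := isC_head k _ h'
  rw [h1] at h2
  exact absurd h2 (by simp)

theorem isC_W : ∀ (k : ℕ) (c : Bool) {y : ℕ → Bool} {p : ℕ}, isC k c y p → W k y p := by
  intro k
  induction k with
  | zero => intro c y p _; unfold W; trivial
  | succ k ih =>
    intro c y p h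
    rcases c with _ | _
    · exact Or.inr ⟨isC_false_not h.1, ih _ h.1, ih _ h.2.1, ih _ h.2.2⟩
    · exact Or.inl h

theorem W_sub {k : ℕ} {y : ℕ → Bool} {p : ℕ} (h : W (k + 1) y p) :
    W k y p ∧ W k y (p + 3 ^ k) ∧ W k y (p + 2 * 3 ^ k) := by
  rcases h with h | h
  · exact ⟨isC_W _ _ h.1, isC_W _ _ h.2.1, isC_W _ _ h.2.2⟩
  · exact h.2

/-- a word of `W_{k+1}` that starts with `A_k` is `A_{k+1}` -/
theorem W_start {k : ℕ} {y : ℕ → Bool} {p : ℕ} (h : W (k + 1) y p) (h' : isC k true y p) : isC (k + 1) true y p := by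
  rcases h with h | h
  · exact h
  · exact absurd h' h.1

theorem W_sub' {k : ℕ} {y : ℕ → Bool} (h : ∀ i, W (k + 1) y (i * 3 ^ (k + 1))) (i : ℕ) : W k y (i * 3 ^ k) := by
  have h1 := W_sub (h (i / 3))
  have e : i / 3 * 3 ^ (k + 1) = (3 * (i / 3)) * 3 ^ k := by rw [pow_succ]; ring
  rw [e] at h1
  have h3 : i % 3 = 0 ∨ i % 3 = 1 ∨ i % 3 = 2 := by omega
  rcases h3 with h3 | h3 | h3
  · rw [show i * 3 ^ k = (3 * (i / 3)) * 3 ^ k by congr 1; omega]; exact h1.1
  · rw [show i * 3 ^ k = (3 * (i / 3)) * 3 ^ k + 3 ^ k by rw [← Nat.succ_mul]; congr 1; omega]; exact h1.2.1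
  · rw [show i * 3 ^ k = (3 * (i / 3)) * 3 ^ k + 2 * 3 ^ k by rw [← Nat.add_mul]; congr 1; omega]; exact h1.2.2

/-- the system -/
def InX (y : ℕ → Bool) : Prop :=
  ∀ k, ∃ s < 3 ^ k, ∃ z : ℕ → Bool, (∀ i, W k z (i * 3 ^ k)) ∧ ∀ i, y i = z (s + i)

/-- the condition of one level -/
def Lev (k : ℕ) (y : ℕ → Bool) : Prop :=
  ∃ s < 3 ^ k, ∃ z : ℕ → Bool, (∀ i, W k z (i * 3 ^ k)) ∧ ∀ i, y i = z (s + i)

theorem W_translate {k : ℕ} {z : ℕ → Bool} (t : ℕ) (h : ∀ i, W k z (i * 3 ^ k)) :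
    ∀ i, W k (fun n => z (n + t * 3 ^ k)) (i * 3 ^ k) := by
  intro i
  refine (W_congr k (z := z) (q := (i + t) * 3 ^ k) fun j _ => ?_).2 (h _)
  show z (i * 3 ^ k + j + t * 3 ^ k) = z ((i + t) * 3 ^ k + j)
  congr 1
  ring

theorem Lev_down {k : ℕ} {y : ℕ → Bool} (h : Lev (k + 1) y) : Lev k y := by
  obtain ⟨s, _, z, hz, hy⟩ := h
  refine ⟨s % 3 ^ k, Nat.mod_lt _ (by positivity), _, W_translate (s / 3 ^ k) (W_sub' hz), fun i => ?_⟩
  rw [hy i]
  congr 1
  have := Nat.div_add_mod s (3 ^ k)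
  rw [Nat.mul_comm] at this
  omega

theorem Lev_le {k l : ℕ} (h : k ≤ l) {y : ℕ → Bool} (hl : Lev l y) : Lev k y := by
  induction l, h using Nat.le_induction with
  | base => exact hl
  | succ l _ ih => exact ih (Lev_down hl)

theorem InX_iff {y : ℕ → Bool} : InX y ↔ ∀ k, Lev k y := Iff.rfl

theorem InX_of_ge {y : ℕ → Bool} (k : ℕ) (h : ∀ j, Lev (k + j) y) : InX y :=
  fun l => Lev_le (Nat.le_add_left l k) (h l)

theorem Lev_shift {k : ℕ} {y : ℕ → Bool} (h : Lev k y) : Lev k (fun i => y (i + 1)) := by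
  obtain ⟨s, hs, z, hz, hy⟩ := h
  rcases Nat.lt_or_ge (s + 1) (3 ^ k) with h1 | h1
  · refine ⟨s + 1, h1, z, hz, fun i => ?_⟩
    show y (i + 1) = z (s + 1 + i)
    rw [hy]; congr 1; ring
  · refine ⟨0, by positivity, _, W_translate 1 hz, fun i => ?_⟩
    show y (i + 1) = z (0 + i + 1 * 3 ^ k)
    rw [hy]
    congr 1
    omega

theorem InX_shift {y : ℕ → Bool} (h : InX y) : InX (fun i => y (i + 1)) := fun k => Lev_shift (h k)

theorem InX_shift_n {y : ℕ → Bool} (h : InX y) : ∀ n, InX (fun i => y (n + i)) := by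
  intro n
  induction n with
  | zero => simpa using h
  | succ n ih =>
    have := InX_shift ih
    have e : (fun i => y (n + (i + 1))) = fun i => y (n + 1 + i) := by funext i; congr 1; ring
    rwa [e] at this

/-- periodic points -/
theorem InX_per {k : ℕ} {y : ℕ → Bool} (hper : ∀ i, y (i + 3 ^ k) = y i) (hW : W k y 0) (hA : ¬ isC k true y 0) :
    InX y := by
  have hp : ∀ t i, y (t * 3 ^ k + i) = y i := by
    intro t
    induction t with
    | zero => intro i; simp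
    | succ t ih =>
      intro i
      rw [← ih i, ← hper (t * 3 ^ k + i)]
      congr 1; ring
  have key : ∀ j i, W (k + j) y (i * 3 ^ k) ∧ ¬ isC (k + j) true y (i * 3 ^ k) := by
    intro j
    induction j with
    | zero =>
      intro i
      have h1 : ∀ r < 3 ^ k, y (i * 3 ^ k + r) = y (0 + r) := fun r _ => by rw [hp, zero_add]
      exact ⟨(W_congr k h1).2 hW, fun h => hA ((isC_congr k true h1).1 h)⟩
    | succ j ih =>
      intro i
      have e1 : i * 3 ^ k + 3 ^ (k + j) = (i + 3 ^ j) * 3 ^ k := by rw [pow_add]; ring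
      have e2 : i * 3 ^ k + 2 * 3 ^ (k + j) = (i + 2 * 3 ^ j) * 3 ^ k := by rw [pow_add]; ring
      refine ⟨Or.inr ⟨(ih i).2, (ih i).1, ?_, ?_⟩, fun h => (ih i).2 h.1⟩
      · show W (k + j) y (i * 3 ^ k + 3 ^ (k + j))
        rw [e1]; exact (ih _).1
      · show W (k + j) y (i * 3 ^ k + 2 * 3 ^ (k + j))
        rw [e2]; exact (ih _).1
  refine InX_of_ge k fun j => ⟨0, by positivity, y, fun i => ?_, fun i => by rw [zero_add]⟩
  have := (key j (i * 3 ^ j)).1
  rwa [show i * 3 ^ j * 3 ^ k = i * 3 ^ (k + j) by rw [pow_add]; ring] at this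

/-- three words, repeated periodically -/
def cat3 (m : ℕ) (f g h : ℕ → Bool) (i : ℕ) : Bool :=
  if i % 3 ^ (m + 1) < 3 ^ m then f (i % 3 ^ (m + 1))
  else if i % 3 ^ (m + 1) < 2 * 3 ^ m then g (i % 3 ^ (m + 1) - 3 ^ m) else h (i % 3 ^ (m + 1) - 2 * 3 ^ m)

theorem cat3_0 {m : ℕ} {f g h : ℕ → Bool} {i : ℕ} (hi : i < 3 ^ m) : cat3 m f g h i = f i := by
  have e : 3 ^ (m + 1) = 3 * 3 ^ m := by rw [pow_succ]; ring
  have h1 : i % 3 ^ (m + 1) = i := Nat.mod_eq_of_lt (by omega)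
  unfold cat3
  rw [h1, if_pos hi]

theorem cat3_1 {m : ℕ} {f g h : ℕ → Bool} {i : ℕ} (hi : i < 3 ^ m) : cat3 m f g h (3 ^ m + i) = g i := by
  have e : 3 ^ (m + 1) = 3 * 3 ^ m := by rw [pow_succ]; ring
  have h1 : (3 ^ m + i) % 3 ^ (m + 1) = 3 ^ m + i := Nat.mod_eq_of_lt (by omega)
  unfold cat3
  rw [h1, if_neg (by omega), if_pos (by omega), Nat.add_sub_cancel_left]

theorem cat3_2 {m : ℕ} {f g h : ℕ → Bool} {i : ℕ} (hi : i < 3 ^ m) : cat3 m f g h (2 * 3 ^ m + i) = h i := by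
  have e : 3 ^ (m + 1) = 3 * 3 ^ m := by rw [pow_succ]; ring
  have h1 : (2 * 3 ^ m + i) % 3 ^ (m + 1) = 2 * 3 ^ m + i := Nat.mod_eq_of_lt (by omega)
  unfold cat3
  rw [h1, if_neg (by omega), if_neg (by omega), Nat.add_sub_cancel_left]

theorem cat3_per {m : ℕ} {f g h : ℕ → Bool} (i : ℕ) : cat3 m f g h (i + 3 ^ (m + 1)) = cat3 m f g h i := by
  unfold cat3
  rw [Nat.add_mod_right]

theorem W_cat3 {m : ℕ} {f g h : ℕ → Bool} (hf : W m f 0) (hg : W m g 0) (hh : W m h 0) (hA : ¬ isC m true f 0) :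
    W (m + 1) (cat3 m f g h) 0 ∧ ¬ isC (m + 1) true (cat3 m f g h) 0 := by
  have h0 : ∀ i < 3 ^ m, cat3 m f g h (0 + i) = f (0 + i) := fun i hi => by rw [zero_add, cat3_0 hi]
  have h1 : ∀ i < 3 ^ m, cat3 m f g h (0 + 3 ^ m + i) = g (0 + i) := fun i hi => by rw [zero_add, zero_add, cat3_1 hi]
  have h2 : ∀ i < 3 ^ m, cat3 m f g h (0 + 2 * 3 ^ m + i) = h (0 + i) := fun i hi => by
    rw [zero_add, zero_add, cat3_2 hi]
  exact ⟨Or.inr ⟨fun h => hA ((isC_congr m true h0).1 h), (W_congr m h0).2 hf, (W_congr m h1).2 hg,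
    (W_congr m h2).2 hh⟩, fun h => hA ((isC_congr m true h0).1 h.1)⟩

/-- the word `0 0 ... 0` -/
def ff : ℕ → Bool := fun _ => false

theorem not_isC_ff (k p : ℕ) : ¬ isC k true ff p := fun h => absurd (isC_head k _ h) (by simp [ff])

theorem W_ff : ∀ k p : ℕ, W k ff p := by
  intro k
  induction k with
  | zero => intro p; unfold W; trivial
  | succ k ih => intro p; exact Or.inr ⟨not_isC_ff k p, ih _, ih _, ih _⟩

theorem ff_InX : InX ff := fun k => ⟨0, by positivity, ff, fun _ => W_ff k _, fun _ => rfl⟩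

/-- **Joining points.** -/
theorem join {y y' : ℕ → Bool} (hy : InX y) (hy' : InX y') (N : ℕ) :
    ∃ w : ℕ → Bool, InX w ∧ (∃ r, 1 ≤ r ∧ ∀ i, w (i + r) = w i) ∧ (∀ i < N, w i = y i) ∧
      ∃ n, 1 ≤ n ∧ ∀ i < N, w (n + i) = y' i := by
  obtain ⟨k, hk⟩ : ∃ k, N ≤ 3 ^ k := ⟨N, (Nat.lt_pow_self (by norm_num)).le⟩
  have e : 3 ^ (k + 1) = 3 * 3 ^ k := by rw [pow_succ]; ring
  have e2 : 3 ^ (k + 1 + 1) = 3 * 3 ^ (k + 1) := by rw [pow_succ]; ring
  have main : ∀ {y : ℕ → Bool}, InX y → ∃ s < 3 ^ k, ∃ P : ℕ → Bool, W (k + 1) P 0 ∧ ¬ isC (k + 1) true P 0 ∧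
      ∀ i < N, P (3 ^ k + s + i) = y i := by
    intro y hy
    obtain ⟨s, hs, z, hz, hyz⟩ := hy k
    have hz0 : W k z 0 := by have := hz 0; rwa [zero_mul] at this
    have hz1 : W k (fun i => z (3 ^ k + i)) 0 := by
      have := hz 1
      rw [one_mul] at this
      exact (W_congr k fun i _ => by simp).2 this
    obtain ⟨h1, h2⟩ := W_cat3 (W_ff k 0) hz0 hz1 (not_isC_ff k 0)
    refine ⟨s, hs, _, h1, h2, fun i hi => ?_⟩
    rw [hyz i]
    rcases lt_or_ge (s + i) (3 ^ k) with h3 | h3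
    · rw [add_assoc, cat3_1 h3]
    · rw [show 3 ^ k + s + i = 2 * 3 ^ k + (s + i - 3 ^ k) by omega, cat3_2 (by omega)]
      congr 1; omega
  obtain ⟨s, hs, P, hP1, hP2, hP⟩ := main hy
  obtain ⟨s', hs', P', hP1', hP2', hP'⟩ := main hy'
  obtain ⟨hQ1, hQ2⟩ := W_cat3 hP1 hP1' hP1' hP2
  have hQ := InX_per (k := k + 1 + 1) (fun i => cat3_per i) hQ1 hQ2
  refine ⟨_, InX_shift_n hQ (3 ^ k + s), ⟨3 ^ (k + 1 + 1), Nat.one_le_pow _ _ (by norm_num), fun i => ?_⟩,
    fun i hi => ?_, 3 ^ (k + 1) + s' - s, by omega, fun i hi => ?_⟩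
  · rw [← add_assoc, cat3_per]
  · rw [cat3_0 (by omega)]; exact hP i hi
  · rw [show 3 ^ k + s + (3 ^ (k + 1) + s' - s + i) = 3 ^ (k + 1) + (3 ^ k + s' + i) by omega, cat3_1 (by omega)]
    exact hP' i hi

/-- every point has a preimage -/
theorem preimage {y : ℕ → Bool} (hy : InX y) : ∃ c : Bool, InX (fun i => if i = 0 then c else y (i - 1)) := by
  have main : ∀ k, ∃ c : Bool, Lev k (fun i => if i = 0 then c else y (i - 1)) := by
    intro k
    obtain ⟨s, hs, z, hz, hyz⟩ := hy k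
    have h3 : 0 < 3 ^ k := by positivity
    rcases Nat.eq_zero_or_pos s with h0 | h0
    · subst h0
      refine ⟨z (3 ^ k - 1), 3 ^ k - 1, by omega, fun i => if i < 3 ^ k then z i else z (i - 3 ^ k), fun i => ?_,
        fun i => ?_⟩
      · rcases Nat.eq_zero_or_pos i with hi | hi
        · subst hi
          have := hz 0
          refine (W_congr k fun j hj => ?_).2 this
          rw [zero_mul, zero_add, if_pos hj]
        · have := hz (i - 1)
          refine (W_congr k fun j hj => ?_).2 this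
          have h4 : i * 3 ^ k = (i - 1) * 3 ^ k + 3 ^ k := by
            obtain ⟨i, rfl⟩ : ∃ j, i = j + 1 := ⟨i - 1, by omega⟩
            rw [Nat.add_sub_cancel]; ring
          rw [h4, if_neg (by omega)]
          congr 1; omega
      · rcases Nat.eq_zero_or_pos i with hi | hi
        · subst hi
          simp only [if_true, add_zero]
          rw [if_pos (by omega)]
        · show (if i = 0 then z (3 ^ k - 1) else y (i - 1)) =
            if 3 ^ k - 1 + i < 3 ^ k then z (3 ^ k - 1 + i) else z (3 ^ k - 1 + i - 3 ^ k)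
          rw [if_neg (by omega), if_neg (by omega), hyz]
          congr 1; omega
    · refine ⟨z (s - 1), s - 1, by omega, z, hz, fun i => ?_⟩
      rcases Nat.eq_zero_or_pos i with hi | hi
      · subst hi; simp
      · show (if i = 0 then z (s - 1) else y (i - 1)) = z (s - 1 + i)
        rw [if_neg (by omega), hyz]
        congr 1; omega
  by_contra hcon
  push Not at hcon
  have h1 := hcon true
  have h2 := hcon false
  rw [InX_iff] at h1 h2
  push Not at h1 h2
  obtain ⟨k1, h1⟩ := h1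
  obtain ⟨k2, h2⟩ := h2
  obtain ⟨c, hc⟩ := main (max k1 k2)
  rcases c with _ | _
  · exact h2 (Lev_le (le_max_right _ _) hc)
  · exact h1 (Lev_le (le_max_left _ _) hc)

end Pool.Agent.KS6_12.LY
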